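import Pool.Agent.Lib.MP_e3a8c8_an.Degenerate

/-!
The Shimorin certificate question for complete Pick pairs.

Positive answer for all pairs `(k, ℓ)` with `k(x, x) = 0` whenever `ℓ(x, x) = 0`; for arbitrary
pairs the restriction to the points where `ℓ(x, x) ≠ 0` has a certificate; and the restriction
cannot be omitted in the degenerate case.
-/

set_option autoImplicit false

namespace Pool.Agent.Results.MP_e3a8c8_an.CertificateAnswer

open Pool.Agent.Lib.PickPairs
open scoped ComplexOrder

universe u

/-- (1) Every complete Pick pair with `k(x, x) = 0` whenever `ℓ(x, x) = 0` has a Shimorin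
certificate. (2) For every complete Pick pair, the restriction to `{x : ℓ(x, x) ≠ 0}` has one.
(3) There is a complete Pick pair on three points (even with repeated interpolation points
allowed) without a Shimorin certificate. -/
theorem result :
    (∀ (X : Type u) (k ℓ : Matrix X X ℂ) [Fact k.PosSemidef] [Fact ℓ.PosSemidef],
      (∀ x, ℓ x x = 0 → k x x = 0) → IsCPPair k ℓ → HasShimorinCertificate k ℓ) ∧
    (∀ (X : Type u) (k ℓ : Matrix X X ℂ) [Fact k.PosSemidef] [Fact ℓ.PosSemidef],
      IsCPPair k ℓ → HasShimorinCertificate (restrictTo ℓ k) (restrictTo ℓ ℓ)) ∧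
    (∃ (k ℓ : Matrix (Fin 3) (Fin 3) ℂ) (_ : Fact k.PosSemidef) (_ : Fact ℓ.PosSemidef),
      (∀ (n N : ℕ) (z : Fin n → Fin 3) (W : Fin n → Matrix (Fin N) (Fin N) ℂ),
        PickProperty k ℓ z W) ∧ ¬ HasShimorinCertificate k ℓ) :=
  ⟨fun _ _ _ _ _ hnd h => certificate_of_isCPPair hnd h,
    fun _ _ _ _ _ h => certificate_restrict h,
    exK, exL, instFactExK, instFactExL, fun _ _ z W => ex_pickProperty z W, ex_no_certificate⟩

end Pool.Agent.Results.MP_e3a8c8_an.CertificateAnswer
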